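import Pool.Agent.helper42.NS.Spec

/-! # Row nos:STP (MP_abccb5_co): one step of the exposure -/

namespace Pool.Agent.helper42.NS

open Polynomial Matrix

theorem STP_odl (h1 : ODL_stmt) (t : ℕ) (H : Matrix (Fin t) (Fin t) ℤ) (P : Pt) :
    Set.ncard {b : Fin t → Bool | ∀ u ∈ EigK (KP P) (lamP P) H, dotb b u = 0} * 2 ^ crk P H ≤
      2 ^ t := by
  have := P.isMaximal
  let _ := Ideal.Quotient.field P.asIdeal
  exact h1 (KP P) t (EigK (KP P) (lamP P) H)

theorem STP_vtx (h2 : VTX_stmt) (t : ℕ) (H : Matrix (Fin t) (Fin t) ℤ) (P : Pt)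
    (b : Fin t → Bool) (hs : ∀ i j, H i j = H j i) :
    crk P (bord H (ind b)) ≤ crk P H + 1 ∧
    ((∃ u ∈ EigK (KP P) (lamP P) H, dotb b u ≠ 0) → crk P (bord H (ind b)) ≤ crk P H) := by
  have := P.isMaximal
  let _ := Ideal.Quotient.field P.asIdeal
  exact h2 (KP P) (lamP P) t H b hs

theorem STP_fin {α : Type} (p : α → Prop) (n : ℕ)
    (h : ∀ s : Finset α, (∀ x ∈ s, p x) → s.card ≤ n) :
    ∃ S : Finset α, (∀ x, x ∈ S ↔ p x) ∧ S.card ≤ n := by
  have hf : {x | p x}.Finite := by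
    by_contra hinf
    obtain ⟨s, hs, hc⟩ := Set.Infinite.exists_subset_card_eq hinf (n + 1)
    have := h s (fun x hx => hs hx)
    omega
  refine ⟨hf.toFinset, fun x => by simp, h _ (fun x hx => ?_)⟩
  rw [Set.Finite.mem_toFinset] at hx
  exact hx

theorem STP (h1 : ODL_stmt) (h2 : VTX_stmt) (h3 : PTP_stmt) (h4 : CRD_stmt) : STP_stmt := by
  intro t L H hL hH ht hG
  have hsym := hH.2.2
  obtain ⟨S1, hS1, hc1⟩ := STP_fin (fun P : Pt => Above 2 P ∧ crk P H = 2 * L + 2) t (by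
    intro s hs
    apply h3 t H 2 Nat.prime_two hsym s
    intro P hP
    refine ⟨(hs P hP).1, ?_⟩
    rw [(hs P hP).2]
    omega)
  obtain ⟨S2, hS2, hc2⟩ := STP_fin (fun P : Pt => crk P H = 5 * L + 3) (2 ^ (4 * L + 1)) (by
    intro s hs
    apply h4 t L H hH ht (fun P hP => (hG P).1 hP) s
    intro P hP
    rw [hs P hP]
    omega)
  set O : Pt → Set (Fin t → Bool) :=
    fun P => {b : Fin t → Bool | ∀ u ∈ EigK (KP P) (lamP P) H, dotb b u = 0} with hO
  have hsub : {b : Fin t → Bool | ¬ Good L (bord H (ind b))} ⊆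
      (⋃ P ∈ S1, O P) ∪ (⋃ P ∈ S2, O P) := by
    intro b hb
    have hb' : ¬ Good L (bord H (ind b)) := hb
    unfold Good at hb'
    push Not at hb'
    obtain ⟨P, hP⟩ := hb'
    obtain ⟨hv1, hv2⟩ := STP_vtx h2 t H P b hsym
    obtain ⟨hg1, hg2⟩ := hG P
    have key : crk P H < crk P (bord H (ind b)) → b ∈ O P := by
      intro hlt u hu
      by_contra hne
      have := hv2 ⟨u, hu, hne⟩
      omega
    by_cases h : Above 2 P ∧ 2 * L + 2 < crk P (bord H (ind b))
    · left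
      have hle := hg1 h.1
      have heq : crk P H = 2 * L + 2 := by omega
      exact Set.mem_biUnion ((hS1 P).2 ⟨h.1, heq⟩) (key (by omega))
    · right
      have hgt : 5 * L + 3 < crk P (bord H (ind b)) := by
        apply hP
        intro ha
        by_contra hcon
        exact h ⟨ha, by omega⟩
      have heq : crk P H = 5 * L + 3 := by omega
      exact Set.mem_biUnion ((hS2 P).2 heq) (key (by omega))
  have hn : Set.ncard {b : Fin t → Bool | ¬ Good L (bord H (ind b))} ≤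
      ∑ P ∈ S1, (O P).ncard + ∑ P ∈ S2, (O P).ncard := by
    refine le_trans (Set.ncard_le_ncard hsub (Set.toFinite _)) ?_
    refine le_trans (Set.ncard_union_le _ _) ?_
    exact add_le_add (Finset.set_ncard_biUnion_le S1 O) (Finset.set_ncard_biUnion_le S2 O)
  have hA : (∑ P ∈ S1, (O P).ncard) * 2 ^ (5 * L + 3) ≤ 2 ^ t * 2 ^ (4 * L + 1) := by
    calc (∑ P ∈ S1, (O P).ncard) * 2 ^ (5 * L + 3)
        = ∑ P ∈ S1, (O P).ncard * 2 ^ (5 * L + 3) := by rw [Finset.sum_mul]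
      _ ≤ ∑ P ∈ S1, 2 ^ t * 2 ^ (3 * L + 1) := by
          apply Finset.sum_le_sum
          intro P hP
          have h := STP_odl h1 t H P
          rw [((hS1 P).1 hP).2] at h
          have e : 2 ^ (5 * L + 3) = 2 ^ (2 * L + 2) * 2 ^ (3 * L + 1) := by
            rw [← pow_add]
            congr 1
            omega
          rw [e, ← mul_assoc]
          exact Nat.mul_le_mul_right _ h
      _ = S1.card * (2 ^ t * 2 ^ (3 * L + 1)) := by rw [Finset.sum_const, smul_eq_mul]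
      _ ≤ 2 ^ L * (2 ^ t * 2 ^ (3 * L + 1)) := Nat.mul_le_mul_right _ (le_trans hc1 ht)
      _ = 2 ^ t * 2 ^ (4 * L + 1) := by
          have e : 2 ^ (4 * L + 1) = 2 ^ L * 2 ^ (3 * L + 1) := by
            rw [← pow_add]
            congr 1
            omega
          rw [e]
          ring
  have hB : (∑ P ∈ S2, (O P).ncard) * 2 ^ (5 * L + 3) ≤ 2 ^ t * 2 ^ (4 * L + 1) := by
    calc (∑ P ∈ S2, (O P).ncard) * 2 ^ (5 * L + 3)
        = ∑ P ∈ S2, (O P).ncard * 2 ^ (5 * L + 3) := by rw [Finset.sum_mul]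
      _ ≤ ∑ P ∈ S2, 2 ^ t := by
          apply Finset.sum_le_sum
          intro P hP
          have h := STP_odl h1 t H P
          rw [(hS2 P).1 hP] at h
          exact h
      _ = S2.card * 2 ^ t := by rw [Finset.sum_const, smul_eq_mul]
      _ ≤ 2 ^ (4 * L + 1) * 2 ^ t := Nat.mul_le_mul_right _ hc2
      _ = 2 ^ t * 2 ^ (4 * L + 1) := mul_comm _ _
  have hC : (Set.ncard {b : Fin t → Bool | ¬ Good L (bord H (ind b))} * 2 ^ (L + 1)) *
      2 ^ (4 * L + 2) ≤ 2 ^ t * 2 ^ (4 * L + 2) := by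
    calc (Set.ncard {b : Fin t → Bool | ¬ Good L (bord H (ind b))} * 2 ^ (L + 1)) * 2 ^ (4 * L + 2)
        = Set.ncard {b : Fin t → Bool | ¬ Good L (bord H (ind b))} * 2 ^ (5 * L + 3) := by
          rw [mul_assoc, ← pow_add]
          congr 2
          omega
      _ ≤ (∑ P ∈ S1, (O P).ncard + ∑ P ∈ S2, (O P).ncard) * 2 ^ (5 * L + 3) :=
          Nat.mul_le_mul_right _ hn
      _ = (∑ P ∈ S1, (O P).ncard) * 2 ^ (5 * L + 3) +
            (∑ P ∈ S2, (O P).ncard) * 2 ^ (5 * L + 3) := by rw [add_mul]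
      _ ≤ 2 ^ t * 2 ^ (4 * L + 1) + 2 ^ t * 2 ^ (4 * L + 1) := add_le_add hA hB
      _ = 2 ^ t * 2 ^ (4 * L + 2) := by
          rw [show 4 * L + 2 = (4 * L + 1) + 1 by omega, pow_succ 2 (4 * L + 1)]
          ring
  exact Nat.le_of_mul_le_mul_right hC (by positivity)

end Pool.Agent.helper42.NS
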